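import Pool.Agent.helper5.LDH.Spec

/-!
# LDH, row CPK (MP_4467b5_nt): choice of the power
-/

set_option autoImplicit false

namespace Pool.Agent.LDH

theorem CPK : CPK_stmt := by
  intro δ hδ hδ1
  refine ⟨(2 : ℝ) ^ (2 / δ), ?_⟩
  intro T H hT hH1 hH2 N hN1 hN2
  have h2δ : 0 < 2 / δ := by positivity
  have hT2 : (1 : ℝ) < (2 : ℝ) ^ (2 / δ) := Real.one_lt_rpow (by norm_num) h2δ
  have hT1 : 1 < T := lt_of_lt_of_le hT2 hT
  have hT0 : 0 < T := by linarith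
  have hTh : (2 : ℝ) ≤ T ^ (δ / 2) := by
    have h1 : ((2 : ℝ) ^ (2 / δ)) ^ (δ / 2) ≤ T ^ (δ / 2) :=
      Real.rpow_le_rpow (by positivity) hT (by positivity)
    rw [← Real.rpow_mul (by norm_num)] at h1
    have h3 : 2 / δ * (δ / 2) = 1 := by field_simp
    rw [h3, Real.rpow_one] at h1
    exact h1
  have hTd : T ^ δ = T ^ (δ / 2) * T ^ (δ / 2) := by
    rw [← Real.rpow_add hT0]
    congr 1
    ring
  have hNh : T ^ (δ / 2) ≤ (N : ℝ) := by
    refine le_trans ?_ hN1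
    rw [hTd]
    nlinarith [hTh]
  have hN2' : (2 : ℝ) ≤ (N : ℝ) := le_trans hTh hNh
  have hHge1 : (1 : ℝ) ≤ H := by
    refine le_trans ?_ hH1
    exact Real.one_le_rpow hT1.le (by norm_num)
  have hH0 : 0 < H := by linarith
  have hTd1 : (1 : ℝ) ≤ T ^ δ := Real.one_le_rpow hT1.le hδ.le
  have hsq : H ^ (1 / 2 : ℝ) * H ^ (1 / 2 : ℝ) = H := by
    rw [← Real.rpow_add hH0]
    norm_num
  have hs0 : 0 < H ^ (1 / 2 : ℝ) := Real.rpow_pos_of_pos hH0 _
  have hs1 : 1 ≤ H ^ (1 / 2 : ℝ) := Real.one_le_rpow hHge1 (by norm_num)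
  by_cases hc : H ^ (1 / 2 : ℝ) ≤ (N : ℝ)
  · refine ⟨1, le_refl _, ?_, by simpa using hc, by simpa using hN2⟩
    rw [le_div_iff₀ hδ]
    push_cast
    linarith
  · push Not at hc
    obtain ⟨k, hk1, hk2⟩ := exists_nat_pow_near hHge1 (show (1 : ℝ) < (N : ℝ) by linarith)
    have hk0 : 1 ≤ k := by
      rcases Nat.eq_zero_or_pos k with h | h
      · subst h
        simp only [zero_add, pow_one] at hk2
        have : H ^ (1 / 2 : ℝ) ≤ H := by
          nlinarith [hsq, hs1]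
        linarith
      · exact h
    refine ⟨k, hk0, ?_, ?_, ?_⟩
    · have h1 : T ^ (δ / 2 * (k : ℝ)) ≤ T ^ (1 : ℝ) := by
        rw [Real.rpow_one, Real.rpow_mul hT0.le, Real.rpow_natCast]
        calc (T ^ (δ / 2)) ^ k ≤ (N : ℝ) ^ k :=
              pow_le_pow_left₀ (by positivity) hNh k
          _ ≤ H := hk1
          _ ≤ T := hH2
      have h2 : δ / 2 * (k : ℝ) ≤ 1 := (Real.rpow_le_rpow_left_iff hT1).mp h1
      rw [le_div_iff₀ hδ]
      nlinarith
    · have h1 : H < (N : ℝ) ^ k * H ^ (1 / 2 : ℝ) := by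
        calc H < (N : ℝ) ^ (k + 1) := hk2
          _ = (N : ℝ) ^ k * N := pow_succ _ _
          _ ≤ (N : ℝ) ^ k * H ^ (1 / 2 : ℝ) :=
              mul_le_mul_of_nonneg_left hc.le (by positivity)
      by_contra hcon
      push Not at hcon
      have : (N : ℝ) ^ k * H ^ (1 / 2 : ℝ) ≤ H ^ (1 / 2 : ℝ) * H ^ (1 / 2 : ℝ) :=
        mul_le_mul_of_nonneg_right hcon.le hs0.le
      rw [hsq] at this
      linarith
    · calc (N : ℝ) ^ k ≤ H := hk1
        _ = H * 1 := (mul_one _).symm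
        _ ≤ H * T ^ δ := mul_le_mul_of_nonneg_left hTd1 hH0.le

end Pool.Agent.LDH
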